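import Pool.Agent.H71.WE.Targets

/-!
Rows QSP, E2A, E2B of the board `wee_modules`.
-/

set_option autoImplicit false
set_option linter.unusedSectionVars false

namespace Pool.Agent.H88.WE

open Finset Pool.Agent.H71.WE

section
variable {V E : Type} [Fintype V] [DecidableEq V] [DecidableEq E]

theorem cn_union_le (G : Gr V E) (A B : Finset E) (X : Finset V) :
    cn G (A ∪ B) X ≤ cn G A X + cn G B X := by
  unfold cn
  rw [filter_union]
  exact card_union_le _ _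

theorem cn_single_le (G : Gr V E) (e : E) (X : Finset V) : cn G {e} X ≤ 1 := by
  unfold cn
  calc (filter (fun e => Cr G X e) {e}).card ≤ ({e} : Finset E).card := card_filter_le _ _
    _ = 1 := card_singleton e

theorem cn_single_zero {G : Gr V E} {e : E} {X : Finset V} (h : ¬ Cr G X e) :
    cn G {e} X = 0 := by
  unfold cn
  rw [card_eq_zero, filter_eq_empty_iff]
  intro g hg
  rw [mem_singleton.1 hg]
  exact h

theorem jn_end {G : Gr V E} {e : E} {a b c : V} (hne : a ≠ b) (h : Jn G e a b)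
    (h' : Jn G e b c) : c = a := by
  rcases h with ⟨h1, h2⟩ | ⟨h1, h2⟩ <;> rcases h' with ⟨h3, h4⟩ | ⟨h3, h4⟩
  · exact absurd (h1.symm.trans h3) hne
  · exact h3.symm.trans h1
  · exact h4.symm.trans h2
  · exact absurd (h2.symm.trans h4) hne

theorem jn_not_cr {G : Gr V E} {e : E} {a b z : V} (h : Jn G e a b) (ha : a ≠ z) (hb : b ≠ z) :
    ¬ Cr G {z} e := by
  rw [jn_cr h]
  simp only [mem_singleton]
  rintro (⟨h1, _⟩ | ⟨_, h1⟩)
  · exact ha h1
  · exact hb h1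

theorem jn_ne {G : Gr V E} {e : E} {a b : V} (h : Jn G e a b) (hab : a ≠ b) :
    G.s e ≠ G.t e := by
  rcases h with ⟨h1, h2⟩ | ⟨h1, h2⟩
  · rw [h1, h2]; exact hab
  · rw [h1, h2]; exact hab.symm

/-- the ends of an edge away from `z` -/
theorem jn_away {G : Gr V E} {e : E} {a b z : V} (h : Jn G e a b) (ha : a ≠ z) (hb : b ≠ z) :
    G.s e ≠ z ∧ G.t e ≠ z := by
  rcases h with ⟨h1, h2⟩ | ⟨h1, h2⟩
  · rw [h1, h2]; exact ⟨ha, hb⟩
  · rw [h1, h2]; exact ⟨hb, ha⟩

theorem jn_at {G : Gr V E} {e : E} {a b : V} (h : Jn G e a b) :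
    (G.s e = a ∨ G.t e = a) ∧ (G.s e = b ∨ G.t e = b) := by
  rcases h with ⟨h1, h2⟩ | ⟨h1, h2⟩
  · exact ⟨Or.inl h1, Or.inr h2⟩
  · exact ⟨Or.inr h2, Or.inl h1⟩

theorem pre_val_single {z : V} (x : {x : V // x ≠ z}) :
    pre (Subtype.val : {x : V // x ≠ z} → V) {x.1} = {x} := by
  ext y
  simp only [pre, mem_filter, mem_univ, true_and, mem_singleton]
  exact ⟨fun h => Subtype.ext h, fun h => by rw [h]⟩

theorem mem_pre_val {z : V} {X : Finset V} (x : {x : V // x ≠ z}) :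
    x ∈ pre (Subtype.val : {x : V // x ≠ z} → V) X ↔ x.1 ∈ X := by
  simp only [pre, mem_filter, mem_univ, true_and]

variable {z : V} {G : Gr V E} {A : Finset E} {G' : Gr {x : V // x ≠ z} E} {A' : Finset E}
  {φ : E → Finset E}

/-- an unsplit edge joins the same vertices -/
theorem jn_same {e : E} (h1 : (G'.s e).1 = G.s e) (h2 : (G'.t e).1 = G.t e) {a b : V}
    (ha : a ≠ z) (hb : b ≠ z) (h : Jn G e a b) : Jn G' e ⟨a, ha⟩ ⟨b, hb⟩ := by
  rcases h with ⟨h3, h4⟩ | ⟨h3, h4⟩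
  · exact Or.inl ⟨Subtype.ext (h1.trans h3), Subtype.ext (h2.trans h4)⟩
  · exact Or.inr ⟨Subtype.ext (h1.trans h3), Subtype.ext (h2.trans h4)⟩

theorem self_mem_phi (hA' : A' ⊆ A)
    (hun : ∀ e ∈ A, G.s e ≠ z → G.t e ≠ z →
      e ∈ A' ∧ (G'.s e).1 = G.s e ∧ (G'.t e).1 = G.t e ∧ φ e = {e})
    (hsp : ∀ e ∈ A', G.s e = z ∨ G.t e = z →
      ∃ q ∈ A, q ≠ e ∧ φ e = {e, q} ∧ Jn G e z (G'.s e).1 ∧ Jn G q z (G'.t e).1)
    {g : E} (hg : g ∈ A') : g ∈ φ g := by
  by_cases h : G.s g = z ∨ G.t g = z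
  · obtain ⟨q, _, _, hφ, _⟩ := hsp g hg h
    rw [hφ]; exact mem_insert_self _ _
  · push Not at h
    rw [(hun g (hA' hg) h.1 h.2).2.2.2]
    exact mem_singleton_self _

theorem ends_of_phi (hA' : A' ⊆ A)
    (hun : ∀ e ∈ A, G.s e ≠ z → G.t e ≠ z →
      e ∈ A' ∧ (G'.s e).1 = G.s e ∧ (G'.t e).1 = G.t e ∧ φ e = {e})
    (hsp : ∀ e ∈ A', G.s e = z ∨ G.t e = z →
      ∃ q ∈ A, q ≠ e ∧ φ e = {e, q} ∧ Jn G e z (G'.s e).1 ∧ Jn G q z (G'.t e).1)
    {g g' : E} (hg' : g' ∈ A') (hg : g ∈ φ g') :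
    (G.s g = z ∨ G.s g = (G'.s g').1 ∨ G.s g = (G'.t g').1) ∧
    (G.t g = z ∨ G.t g = (G'.s g').1 ∨ G.t g = (G'.t g').1) := by
  by_cases h : G.s g' = z ∨ G.t g' = z
  · obtain ⟨q, _, _, hφ, hJ, hJ'⟩ := hsp g' hg' h
    rw [hφ, mem_insert, mem_singleton] at hg
    rcases hg with rfl | rfl
    · rcases hJ with ⟨h1, h2⟩ | ⟨h1, h2⟩
      · exact ⟨Or.inl h1, Or.inr (Or.inl h2)⟩
      · exact ⟨Or.inr (Or.inl h1), Or.inl h2⟩
    · rcases hJ' with ⟨h1, h2⟩ | ⟨h1, h2⟩
      · exact ⟨Or.inl h1, Or.inr (Or.inr h2)⟩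
      · exact ⟨Or.inr (Or.inr h1), Or.inl h2⟩
  · push Not at h
    obtain ⟨_, h1, h2, h3⟩ := hun g' (hA' hg') h.1 h.2
    rw [h3, mem_singleton] at hg
    subst hg
    exact ⟨Or.inr (Or.inl h1.symm), Or.inr (Or.inr h2.symm)⟩

end

theorem qsp_aux (h0 : T_RQ) (h1 : T_CSP) (h2 : T_LFT) (h3 : T_PTH) (h4 : T_RES)
    (V E : Type) [Fintype V] [DecidableEq V] [DecidableEq E]
    (G : Gr V E) (A : Finset E) (r : ℕ) (v u w z : V) (e f : E) (hQ : QH G A r v u w e f)
    (huw : u ≠ w) (hzv : z ≠ v) (hzw : z ≠ w) (hdz : cn G A {z} = r + 2)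
    (hIQ : IQ r {x : V // x ≠ z} E) : QC G A r v u w e f := by
  obtain ⟨hr, hEc, hdv, heA, hfA, hef, hJe, hJf, huv, hwv⟩ := hQ
  obtain ⟨G', A', φ, hA', heA', hLf, hcut, hun, hsp, hpar, hloop⟩ :=
    h1 V E G A z (fun _ => r + 2) ((h0 V z).1 (r + 2) (hr.add (by decide)))
      (by rw [hdz]; exact hr.add (by decide))
      (fun X hzX hX _ => hEc X hX (fun h => hzX (h ▸ mem_univ z))) e heA (jn_ne hJe huv.symm)
  obtain ⟨hl1, hl2, hl3⟩ := h2 _ _ _ _ G A G' A' _ φ hLf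
  let v' : {x : V // x ≠ z} := ⟨v, hzv.symm⟩
  let w' : {x : V // x ≠ z} := ⟨w, hzw.symm⟩
  have hfz := jn_away hJf hzv.symm hzw.symm
  obtain ⟨hfA', hfs, hft, hφf⟩ := hun f hfA hfz.1 hfz.2
  have hJf' : Jn G' f v' w' := jn_same hfs hft hzv.symm hzw.symm hJf
  -- the other end of `e`
  obtain ⟨u', Qs, hu'v, hJe', hQφ, hQv, hCoQ, hcount⟩ : ∃ (u' : {x : V // x ≠ z})
      (Qs : Finset E), u' ≠ v' ∧ Jn G' e v' u' ∧ Qs ⊆ φ e ∧
      (∀ g ∈ Qs, G.s g ≠ v ∧ G.t g ≠ v) ∧ Co G Qs u u'.1 ∧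
      ∀ F0, Pt G F0 u w → cn G F0 {z} + cn G {e} {z} ≤ 2 := by
    by_cases hzu : z = u
    · subst hzu
      obtain ⟨q, hqA, hqe, hφe, hJz, hJq⟩ := hsp e heA' (jn_at hJe).2
      have hse : (G'.s e).1 = v := jn_end hzv.symm hJe hJz
      have hlp := hloop v' hdv (fun h => by
        have : w ∈ univ.erase z := mem_erase.2 ⟨hzw.symm, mem_univ _⟩
        rw [h, mem_singleton] at this
        exact hwv this) e heA' (jn_at hJe).2
      have hse' : G'.s e = v' := Subtype.ext hse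
      have hne : G'.t e ≠ v' := fun h => hlp ⟨hse', h⟩
      have hne' : (G'.t e).1 ≠ v := fun h => hne (Subtype.ext h)
      refine ⟨G'.t e, {q}, hne, Or.inl ⟨hse', rfl⟩, ?_, ?_, co_edge hJq, ?_⟩
      · rw [hφe]; intro x hx; rw [mem_singleton] at hx; subst hx
        exact mem_insert_of_mem (mem_singleton_self _)
      · intro g hg
        rw [mem_singleton.1 hg]
        exact jn_away hJq hzv hne'
      · intro F0 hF0
        have e1 := (h3 V E G F0 z w hF0).2.2.1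
        have e2 := cn_single_le G e {z}
        omega
    · have hzu' : u ≠ z := fun h => hzu h.symm
      have hez := jn_away hJe hzv.symm hzu'
      obtain ⟨_, hes, het, hφe⟩ := hun e heA hez.1 hez.2
      refine ⟨⟨u, hzu'⟩, ∅, fun h => huv (congrArg Subtype.val h),
        jn_same hes het hzv.symm hzu' hJe, empty_subset _, ?_, co_refl G ∅ u, ?_⟩
      · intro g hg; exact absurd hg (notMem_empty g)
      · intro F0 hF0
        have e1 := (h3 V E G F0 u w hF0).2.1 z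
        have e2 : cn G {e} {z} = 0 := cn_single_zero (jn_not_cr hJe hzv.symm hzu')
        omega
  -- induction
  have hQ' : QH G' A' r v' u' w' e f := by
    refine ⟨hr, fun X hX hX' => hcut X hX hX', ?_, heA', hfA', hef, hJe', hJf', hu'v,
      fun h => hwv (congrArg Subtype.val h)⟩
    have e1 := hl2 ∅ (empty_subset _) {v}
    rw [pre_val_single v', sdiff_empty, biUnion_empty, sdiff_empty] at e1
    exact e1.trans hdv
  obtain ⟨F', hF'A, hF'v, hF'co, hF'Ec⟩ := hIQ G' A' v' u' w' e f hQ'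
  have hφA : F'.biUnion φ ⊆ A := by
    intro g hg
    obtain ⟨g', hg', hgg⟩ := mem_biUnion.1 hg
    exact hLf.sub g' (hF'A hg') hgg
  have hCo : Co G (Qs ∪ F'.biUnion φ) u w := co_trans hCoQ (hl1 F' hF'A u' w' hF'co)
  obtain ⟨F0, hF0, hPt⟩ := pt_exists hCo
  have heφ : e ∈ φ e := self_mem_phi hA' hun hsp heA'
  have hfφ : f ∈ φ f := self_mem_phi hA' hun hsp hfA'
  have hQA : Qs ⊆ A := hQφ.trans (hLf.sub e heA')
  have hF0A : F0 ⊆ A := hF0.trans (union_subset hQA hφA)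
  refine ⟨F0, hF0A, ?_, hPt.1, ?_⟩
  · intro g hg
    rcases mem_union.1 (hF0 hg) with h | h
    · exact hQv g h
    · obtain ⟨g', hg', hgg⟩ := mem_biUnion.1 h
      obtain ⟨ha, hb⟩ := ends_of_phi hA' hun hsp (hF'A hg') hgg
      obtain ⟨hc, hd⟩ := hF'v g' hg'
      have hc' : (G'.s g').1 ≠ v := fun h => hc (Subtype.ext h)
      have hd' : (G'.t g').1 ≠ v := fun h => hd (Subtype.ext h)
      constructor
      · rcases ha with h | h | h
        · rw [h]; exact hzv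
        · rw [h]; exact hc'
        · rw [h]; exact hd'
      · rcases hb with h | h | h
        · rw [h]; exact hzv
        · rw [h]; exact hc'
        · rw [h]; exact hd'
  · have hres := h4 V E G A z G' A' φ hLf (F' ∪ {e, f}) (F0 ∪ {e, f}) r (fun _ => 0)
      (fun _ => rfl) ?_ ?_ ?_ ?_
    · intro X hX hX'
      have := hres X hX hX'
      simpa using this
    · refine union_subset hF'A ?_
      intro g hg
      rw [mem_insert, mem_singleton] at hg
      rcases hg with rfl | rfl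
      · exact heA'
      · exact hfA'
    · intro g hg
      rcases mem_union.1 hg with h | h
      · rcases mem_union.1 (hF0 h) with h | h
        · exact mem_biUnion.2 ⟨e, mem_union_right _ (mem_insert_self _ _), hQφ h⟩
        · obtain ⟨g', hg', hgg⟩ := mem_biUnion.1 h
          exact mem_biUnion.2 ⟨g', mem_union_left _ hg', hgg⟩
      · rw [mem_insert, mem_singleton] at h
        rcases h with rfl | rfl
        · exact mem_biUnion.2 ⟨g, mem_union_right _ (mem_insert_self _ _), heφ⟩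
        · exact mem_biUnion.2 ⟨g, mem_union_right _
            (mem_insert_of_mem (mem_singleton_self _)), hfφ⟩
    · intro X hX hX'
      simpa using hF'Ec _ hX hX'
    · have hU : F0 ∪ {e, f} ⊆ A := by
        refine union_subset hF0A ?_
        intro g hg
        rw [mem_insert, mem_singleton] at hg
        rcases hg with rfl | rfl
        · exact heA
        · exact hfA
      have e1 := cn_sdiff G hU {z}
      have e2 := cn_union_le G F0 {e, f} {z}
      have e3 : cn G {e, f} {z} ≤ cn G {e} {z} + cn G {f} {z} := cn_union_le G {e} {f} {z}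
      have e4 : cn G {f} {z} = 0 := cn_single_zero (jn_not_cr hJf hzv.symm hzw.symm)
      have e5 := hcount F0 hPt
      simp only [add_zero]
      omega

theorem pf_QSP (h0 : T_RQ) (h1 : T_CSP) (h2 : T_LFT) (h3 : T_PTH) (h4 : T_RES) : T_QSP := by
  intro V E _ _ _ G A r v u w z e f hQ huw hzv hdz hIQ
  by_cases hzw : z = w
  · obtain ⟨hr, hEc, hdv, heA, hfA, hef, hJe, hJf, huv, hwv⟩ := hQ
    have hzu : z ≠ u := fun h => huw (h.symm.trans hzw)
    obtain ⟨F, hF1, hF2, hF3, hF4⟩ := qsp_aux h0 h1 h2 h3 h4 V E G A r v w u z f e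
      ⟨hr, hEc, hdv, hfA, heA, hef.symm, hJf, hJe, hwv, huv⟩ huw.symm hzv hzu hdz hIQ
    refine ⟨F, hF1, hF2, co_symm hF3, ?_⟩
    rw [pair_comm]
    exact hF4
  · exact qsp_aux h0 h1 h2 h3 h4 V E G A r v u w z e f hQ huw hzv hzw hdz hIQ

theorem sep_compl {V : Type} [Fintype V] [DecidableEq V] (a b : V) (X : Finset V) :
    sep a b Xᶜ = sep a b X := by
  unfold sep
  simp only [mem_compl]
  congr 1
  simp only [eq_iff_iff]
  tauto

/-- The common part of E2A and E2B: `ζ` is split, `x` is the end of `e` in the new graph. -/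
theorem e2_core (h2 : T_LFT) (h4 : T_RES)
    (V E : Type) [Fintype V] [DecidableEq V] [DecidableEq E]
    (G : Gr V E) (A : Finset E) (r : ℕ) (K : Finset V) (v z : V) (e : E) (ζ : V)
    (hEH : EH G A r K v z e) (hζK : ζ ∉ K)
    (G' : Gr {x : V // x ≠ ζ} E) (A' : Finset E) (φ : E → Finset E) (hA' : A' ⊆ A)
    (heA' : e ∈ A') (hLf : Lf G A G' A' Subtype.val φ)
    (hcut : ∀ X : Finset {x : V // x ≠ ζ}, X.Nonempty → X ≠ univ →
      rK K r (X.image Subtype.val) ≤ cn G' A' X)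
    (hun : ∀ e ∈ A, G.s e ≠ ζ → G.t e ≠ ζ →
      e ∈ A' ∧ (G'.s e).1 = G.s e ∧ (G'.t e).1 = G.t e ∧ φ e = {e})
    (hsp : ∀ e ∈ A', G.s e = ζ ∨ G.t e = ζ →
      ∃ q ∈ A, q ≠ e ∧ φ e = {e, q} ∧ Jn G e ζ (G'.s e).1 ∧ Jn G q ζ (G'.t e).1)
    (hvζ : v ≠ ζ) (x : {x : V // x ≠ ζ}) (Qs : Finset E) (hxv : x ≠ ⟨v, hvζ⟩)
    (hJe' : Jn G' e ⟨v, hvζ⟩ x) (hQφ : Qs ⊆ φ e) (heQ : e ∉ Qs)
    (hQK : ∀ g ∈ Qs, (G.s g ∈ K → G.s g = x.1) ∧ (G.t g ∈ K → G.t g = x.1))
    (hCoQ : Co G Qs z x.1)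
    (hcount : ∀ D0 y, Pt G D0 z y → cn G D0 {ζ} + cn G {e} {ζ} ≤ 2)
    (hIE : IE r {x : V // x ≠ ζ} E) : EC G A r K v z e := by
  obtain ⟨hr, hvK, hzv, heA, hJe, hdv, hEc, hK2⟩ := hEH
  obtain ⟨hl1, hl2, hl3⟩ := h2 _ _ _ _ G A G' A' _ φ hLf
  set v' : {x : V // x ≠ ζ} := ⟨v, hvζ⟩ with hv'
  let K' : Finset {x : V // x ≠ ζ} := pre Subtype.val K
  have hrK : ∀ X, r ≤ rK K r X := by
    intro X
    unfold rK
    split
    · omega
    · exact le_rfl
  have hEH' : EH G' A' r K' v' x e := by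
    refine ⟨hr, (mem_pre_val v').2 hvK, hxv, heA', hJe', ?_, ?_, ?_⟩
    · have e1 := hl2 ∅ (empty_subset _) {v}
      have e0 : ({v} : Finset V) = {v'.1} := rfl
      rw [e0, pre_val_single v', sdiff_empty, biUnion_empty, sdiff_empty] at e1
      exact e1.trans hdv
    · intro X hX hX'
      exact (hrK _).trans (hcut X hX hX')
    · intro X hX hXK
      have hX' : X ≠ univ := by
        rintro rfl
        exact disjoint_left.1 hXK (mem_univ v') ((mem_pre_val v').2 hvK)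
      have e1 := hcut X hX hX'
      have e2 : rK K r (X.image Subtype.val) = r + 2 := by
        unfold rK
        rw [if_pos]
        left
        rw [disjoint_left]
        intro a ha haK
        obtain ⟨b, hb, rfl⟩ := mem_image.1 ha
        exact disjoint_left.1 hXK hb ((mem_pre_val b).2 haK)
      omega
  obtain ⟨y', hy'K, hy'v, D', hD'A, hD'co, hD'K, hD'res⟩ := hIE G' A' K' v' x e hEH'
  have hyK : y'.1 ∈ K := (mem_pre_val y').1 hy'K
  have hyv : y'.1 ≠ v := fun h => hy'v (Subtype.ext h)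
  have hD'A' : D' ⊆ A' := hD'A.trans (erase_subset _ _)
  have heφ : e ∈ φ e := self_mem_phi hA' hun hsp heA'
  have hCo : Co G (Qs ∪ D'.biUnion φ) z y'.1 := co_trans hCoQ (hl1 D' hD'A' x y' hD'co)
  obtain ⟨D0, hD0, hPt⟩ := pt_exists hCo
  have hsub : Qs ∪ D'.biUnion φ ⊆ A.erase e := by
    intro g hg
    rcases mem_union.1 hg with h | h
    · exact mem_erase.2 ⟨fun h' => heQ (h' ▸ h), hLf.sub e heA' (hQφ h)⟩
    · obtain ⟨g', hg', hgg⟩ := mem_biUnion.1 h
      refine mem_erase.2 ⟨?_, hLf.sub g' (hD'A' hg') hgg⟩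
      rintro rfl
      have hne : g' ≠ g := (mem_erase.1 (hD'A hg')).1
      exact disjoint_left.1 (hLf.dis g' (hD'A' hg') g heA' hne) hgg heφ
  have hxK : x.1 ∈ K → x = y' := by
    intro hx
    by_contra hne
    have hx' : x ∈ K' := (mem_pre_val x).2 hx
    obtain ⟨g, hg, hcr⟩ := hD'co {x} (mem_singleton_self x)
      (fun h => hne (mem_singleton.1 h).symm)
    obtain ⟨ha, hb⟩ := hD'K g hg
    rcases hcr with ⟨h, _⟩ | ⟨_, h⟩
    · rw [mem_singleton] at h
      rw [h] at ha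
      exact hne (ha hx')
    · rw [mem_singleton] at h
      rw [h] at hb
      exact hne (hb hx')
  refine ⟨y'.1, hyK, hyv, D0, hD0.trans hsub, hPt.1, ?_, ?_⟩
  · intro g hg
    rcases mem_union.1 (hD0 hg) with h | h
    · obtain ⟨ha, hb⟩ := hQK g h
      constructor
      · intro hgK
        have e1 := ha hgK
        rw [e1] at hgK ⊢
        rw [hxK hgK]
      · intro hgK
        have e1 := hb hgK
        rw [e1] at hgK ⊢
        rw [hxK hgK]
    · obtain ⟨g', hg', hgg⟩ := mem_biUnion.1 h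
      obtain ⟨ha, hb⟩ := ends_of_phi hA' hun hsp (hD'A' hg') hgg
      obtain ⟨hc, hd⟩ := hD'K g' hg'
      have hs : (G'.s g').1 ∈ K → (G'.s g').1 = y'.1 := fun h => by
        rw [hc ((mem_pre_val _).2 h)]
      have ht : (G'.t g').1 ∈ K → (G'.t g').1 = y'.1 := fun h => by
        rw [hd ((mem_pre_val _).2 h)]
      constructor
      · intro hgK
        rcases ha with h | h | h
        · rw [h] at hgK; exact absurd hgK hζK
        · rw [h] at hgK ⊢; exact hs hgK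
        · rw [h] at hgK ⊢; exact ht hgK
      · intro hgK
        rcases hb with h | h | h
        · rw [h] at hgK; exact absurd hgK hζK
        · rw [h] at hgK ⊢; exact hs hgK
        · rw [h] at hgK ⊢; exact ht hgK
  · have hD0A : D0 ⊆ A := (hD0.trans hsub).trans (erase_subset _ _)
    refine h4 V E G A ζ G' A' φ hLf (insert e D') (insert e D0) r (sep v y'.1)
      (sep_compl v y'.1) ?_ ?_ ?_ ?_
    · exact insert_subset heA' hD'A'
    · intro g hg
      rcases mem_insert.1 hg with rfl | h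
      · exact mem_biUnion.2 ⟨g, mem_insert_self _ _, heφ⟩
      · rcases mem_union.1 (hD0 h) with h | h
        · exact mem_biUnion.2 ⟨e, mem_insert_self _ _, hQφ h⟩
        · obtain ⟨g', hg', hgg⟩ := mem_biUnion.1 h
          exact mem_biUnion.2 ⟨g', mem_insert_of_mem hg', hgg⟩
    · intro X hX hX'
      have e1 := hD'res _ hX hX'
      have e2 : sep v' y' (pre Subtype.val X) = sep v y'.1 X := by
        unfold sep
        simp only [mem_pre_val]
        rfl
      rw [e2] at e1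
      exact e1
    · have hU : insert e D0 ⊆ A := insert_subset heA hD0A
      have e1 := cn_sdiff G hU {ζ}
      have e2 : cn G (insert e D0) {ζ} ≤ cn G {e} {ζ} + cn G D0 {ζ} := by
        rw [insert_eq]
        exact cn_union_le G {e} D0 {ζ}
      have e3 := hcount D0 y'.1 hPt
      have e4 : r + 2 ≤ cn G A {ζ} := by
        refine hK2 {ζ} (singleton_nonempty ζ) ?_
        rw [disjoint_left]
        intro a ha haK
        rw [mem_singleton.1 ha] at haK
        exact hζK haK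
      omega

/-- The cut hypothesis of CSP. -/
theorem e2_cut {V E : Type} [Fintype V] [DecidableEq V] [DecidableEq E] {G : Gr V E}
    {A : Finset E} {r : ℕ} {K : Finset V} {ζ : V} (hζK : ζ ∉ K) (hEc : Ec G A r)
    (hK2 : ∀ X : Finset V, X.Nonempty → Disjoint X K → r + 2 ≤ cn G A X) :
    ∀ X : Finset V, ζ ∉ X → X.Nonempty → X ≠ univ.erase ζ → rK K r X ≤ cn G A X := by
  intro X hζX hX _
  have hXu : X ≠ univ := fun h => hζX (h ▸ mem_univ ζ)
  unfold rK
  by_cases h : Disjoint X K ∨ K ⊆ X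
  · rw [if_pos h]
    rcases h with h | h
    · exact hK2 X hX h
    · rw [← cn_compl]
      refine hK2 Xᶜ ⟨ζ, mem_compl.2 hζX⟩ ?_
      rw [disjoint_left]
      intro a ha haK
      exact (mem_compl.1 ha) (h haK)
  · rw [if_neg h]
    exact hEc X hX hXu

theorem pf_E2A (h0 : T_RQ) (h1 : T_CSP) (h2 : T_LFT) (h3 : T_PTH) (h4 : T_RES) : T_E2A := by
  intro V E _ _ _ G A r K v z e hEH hzK hev hIE
  obtain ⟨hr, hvK, hzv, heA, hJe, hdv, hEc, hK2⟩ := hEH
  obtain ⟨G', A', φ, hA', heA', hLf, hcut, hun, hsp, hpar, hloop⟩ :=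
    h1 V E G A z (rK K r) ((h0 V z).2 K r hzK hr) hev (e2_cut hzK hEc hK2) e heA
      (jn_ne hJe hzv.symm)
  -- another vertex of `K`
  obtain ⟨k, hkK, hkv⟩ : ∃ k ∈ K, k ≠ v := by
    by_contra hcon
    push Not at hcon
    have e1 := hK2 ({v}ᶜ) ⟨z, by simp [hzv]⟩ (by
      rw [disjoint_left]
      intro a ha haK
      rw [mem_compl, mem_singleton] at ha
      exact ha (hcon a haK))
    rw [cn_compl] at e1
    omega
  have hkz : k ≠ z := fun h => hzK (h ▸ hkK)
  obtain ⟨q, hqA, hqe, hφe, hJz, hJq⟩ := hsp e heA' (jn_at hJe).2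
  have hse : (G'.s e).1 = v := jn_end hzv.symm hJe hJz
  have hse' : G'.s e = ⟨v, hzv.symm⟩ := Subtype.ext hse
  have hlp := hloop ⟨v, hzv.symm⟩ (by
      have : r ≤ rK K r {v} := by unfold rK; split <;> omega
      show cn G A {v} ≤ rK K r {v} + 1
      omega) (fun h => by
    have : k ∈ univ.erase z := mem_erase.2 ⟨hkz, mem_univ _⟩
    rw [h, mem_singleton] at this
    exact hkv this) e heA' (jn_at hJe).2
  have hne : G'.t e ≠ ⟨v, hzv.symm⟩ := fun h => hlp ⟨hse', h⟩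
  refine e2_core h2 h4 V E G A r K v z e z ⟨hr, hvK, hzv, heA, hJe, hdv, hEc, hK2⟩ hzK G' A' φ
    hA' heA' hLf hcut hun hsp hzv.symm (G'.t e) {q} hne (Or.inl ⟨hse', rfl⟩) ?_ ?_ ?_
    (co_edge hJq) ?_ hIE
  · rw [hφe]; intro x hx; rw [mem_singleton] at hx; subst hx
    exact mem_insert_of_mem (mem_singleton_self _)
  · intro h; exact hqe (mem_singleton.1 h).symm
  · intro g hg
    rw [mem_singleton.1 hg]
    rcases hJq with ⟨a1, a2⟩ | ⟨a1, a2⟩
    · exact ⟨fun h => absurd (a1 ▸ h) hzK, fun _ => a2⟩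
    · exact ⟨fun _ => a1, fun h => absurd (a2 ▸ h) hzK⟩
  · intro D0 y hD0
    have e1 := (h3 V E G D0 z y hD0).2.2.1
    have e2 := cn_single_le G e {z}
    omega

theorem pf_E2B (h0 : T_RQ) (h1 : T_CSP) (h2 : T_LFT) (h3 : T_PTH) (h4 : T_RES) : T_E2B := by
  intro V E _ _ _ G A r K v z e ζ hEH hζK hζz hev hIE
  obtain ⟨hr, hvK, hzv, heA, hJe, hdv, hEc, hK2⟩ := hEH
  obtain ⟨G', A', φ, hA', heA', hLf, hcut, hun, hsp, hpar, hloop⟩ :=
    h1 V E G A ζ (rK K r) ((h0 V ζ).2 K r hζK hr) hev (e2_cut hζK hEc hK2) e heA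
      (jn_ne hJe hzv.symm)
  have hvζ : v ≠ ζ := fun h => hζK (h ▸ hvK)
  have hez := jn_away hJe hvζ hζz.symm
  obtain ⟨_, hes, het, hφe⟩ := hun e heA hez.1 hez.2
  refine e2_core h2 h4 V E G A r K v z e ζ ⟨hr, hvK, hzv, heA, hJe, hdv, hEc, hK2⟩ hζK G' A' φ
    hA' heA' hLf hcut hun hsp hvζ ⟨z, hζz.symm⟩ ∅ (fun h => hzv (congrArg Subtype.val h))
    (jn_same hes het hvζ hζz.symm hJe) (empty_subset _) (notMem_empty e) ?_ (co_refl G ∅ z)
    ?_ hIE
  · intro g hg; exact absurd hg (notMem_empty g)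
  · intro D0 y hD0
    have e1 := (h3 V E G D0 z y hD0).2.1 ζ
    have e2 : cn G {e} {ζ} = 0 := cn_single_zero (jn_not_cr hJe hvζ hζz.symm)
    omega

end Pool.Agent.H88.WE
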